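import Pool.Agent.E8helper66.GB.Stm

set_option autoImplicit false

namespace Pool.Agent.E8helper66.GB

open Finset
open Pool.Agent.H807R2.Dav (ee)
open Pool.Agent.H373R2.T7 (lamz pz Vz)

lemma lamz_le_log (K : ℕ) : ∃ N0 : ℕ, ∀ N : ℕ, N0 ≤ N → ∀ z : ℕ, 1 ≤ z → (z : ℝ) ≤ Real.log N ^ K → ∀ y : ℕ,
    |lamz z y| ≤ Real.log N := by
  obtain ⟨m1, h1⟩ := Pool.Agent.H373R2.T7.Vz_inv_small K
  refine ⟨max m1 1, fun N hN z hz1 hz2 y => ?_⟩
  have hV := h1 N (le_trans (le_max_left _ _) hN) z hz1 hz2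
  have hV0 : 0 ≤ Vz z := by
    unfold Vz
    apply prod_nonneg
    intro p hp
    rw [Pool.Agent.H373R2.T7.mem_pz] at hp
    have : (2 : ℝ) ≤ p := by exact_mod_cast hp.2.two_le
    rw [sub_nonneg, div_le_one (by linarith)]
    linarith
  unfold lamz
  split_ifs
  · rw [abs_of_nonneg (inv_nonneg.2 hV0)]
    exact hV
  · rw [abs_zero]
    exact (inv_nonneg.2 hV0).trans hV

lemma ev_log (c : ℝ) : ∃ N0 : ℕ, ∀ N : ℕ, N0 ≤ N → c ≤ Real.log N := by
  have hlim : Filter.Tendsto (fun N : ℕ => Real.log (N : ℝ)) Filter.atTop Filter.atTop :=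
    Real.tendsto_log_atTop.comp (tendsto_natCast_atTop_atTop (R := ℝ))
  have h := hlim.eventually (Filter.eventually_ge_atTop c)
  rw [Filter.eventually_atTop] at h
  exact h

theorem t_U3 (hLAM : S_LAM) (hLZ : S_LZ) : S_U3 := by
  intro U
  obtain ⟨U1, m1, h1⟩ := hLAM (U + 1)
  obtain ⟨U2, h2⟩ := hLZ (U + 1)
  obtain ⟨B, hB⟩ := Pool.Agent.H373R2.T7.sup_diff (max U1 U2)
  refine ⟨B, fun K => ?_⟩
  obtain ⟨m2, h2⟩ := h2 K
  obtain ⟨m3, h3⟩ := hB K
  obtain ⟨m4, h4⟩ := lamz_le_log K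
  obtain ⟨m5, h5⟩ := ev_log 2
  refine ⟨m1 + m2 + m3 + m4 + m5 + 2, fun N hN z hz1 hz2 κ θ hκ => ?_⟩
  have hL : 2 ≤ Real.log N := h5 N (by omega)
  have hL1 : 1 ≤ Real.log N := by linarith
  have hN0 : (0 : ℝ) < N := by
    have : 2 ≤ N := by omega
    have : (2 : ℝ) ≤ N := by exact_mod_cast this
    linarith
  have hz : 1 ≤ z := by
    have : (1 : ℝ) ≤ z := (one_le_pow₀ hL1).trans hz1
    exact_mod_cast this
  have hD : ∀ y ∈ Icc 1 N, ‖DD z y‖ ≤ Real.log N ^ 2 := by
    intro y hy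
    rw [mem_Icc] at hy
    unfold DD
    rw [Complex.norm_real, Real.norm_eq_abs]
    have a1 : |ArithmeticFunction.vonMangoldt y| ≤ Real.log N := by
      rw [abs_of_nonneg ArithmeticFunction.vonMangoldt_nonneg]
      refine ArithmeticFunction.vonMangoldt_le_log.trans ?_
      apply Real.log_le_log
      · have : 0 < y := by omega
        exact_mod_cast this
      · exact_mod_cast hy.2
    have a2 := h4 N (by omega) z hz hz2 y
    refine (abs_sub _ _).trans ?_
    nlinarith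
  have hS : SupLe N (DD z) (N / Real.log N ^ (max U1 U2)) := by
    intro α
    exact h3 N (by omega) z hz1 hz2 α
  have hS1 : SupLe N (DD z) (N / Real.log N ^ U1) := by
    intro α
    refine (hS α).trans ?_
    apply div_le_div_of_nonneg_left hN0.le (by positivity)
    exact pow_le_pow_right₀ hL1 (le_max_left _ _)
  have hS2 : SupLe N (DD z) (N / Real.log N ^ U2) := by
    intro α
    refine (hS α).trans ?_
    apply div_le_div_of_nonneg_left hN0.le (by positivity)
    exact pow_le_pow_right₀ hL1 (le_max_right _ _)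
  have e1 := h1 N (by omega) (DD z) κ θ hD hS1 hκ
  have e2 := h2 N (by omega) z hz hz2 (DD z) κ θ hD hS2 hκ
  have hsplit : ∑ x ∈ Icc 1 N, DD z x * FF N (DD z) κ θ x =
      ∑ x ∈ Icc 1 N, ((ArithmeticFunction.vonMangoldt x : ℝ) : ℂ) * FF N (DD z) κ θ x -
      ∑ x ∈ Icc 1 N, ((lamz z x : ℝ) : ℂ) * FF N (DD z) κ θ x := by
    rw [← sum_sub_distrib]
    apply sum_congr rfl
    intro x _
    have : DD z x = ((ArithmeticFunction.vonMangoldt x : ℝ) : ℂ) - ((lamz z x : ℝ) : ℂ) := by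
      unfold DD
      push_cast
      ring
    rw [this, sub_mul]
  rw [hsplit]
  refine (norm_sub_le _ _).trans ((add_le_add e1 e2).trans ?_)
  rw [pow_succ]
  have hLU : 0 < Real.log N ^ U := by positivity
  calc (N : ℝ) ^ 2 / (Real.log N ^ U * Real.log N) + N ^ 2 / (Real.log N ^ U * Real.log N) =
      (2 / Real.log N) * (N ^ 2 / Real.log N ^ U) := by field_simp; ring
    _ ≤ 1 * (N ^ 2 / Real.log N ^ U) := by
        apply mul_le_mul_of_nonneg_right _ (by positivity)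
        rw [div_le_one (by linarith)]
        linarith
    _ = _ := one_mul _

end Pool.Agent.E8helper66.GB
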