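import Pool.Agent.E8helper66.GB.Stm

set_option autoImplicit false

namespace Pool.Agent.E8helper66.GB

open Finset

/-- the number of the pairs at small distance -/
noncomputable def PW (S : ℕ) (W : Finset ℤ) : ℕ := ((W ×ˢ Icc (-(S : ℤ)) S).filter (fun x => x.1 - x.2 ∈ W)).card

lemma PW_ge (M S : ℕ) (W : Finset ℤ) (hM : 1 ≤ M) (hS : 1 ≤ S) (hSM : S ≤ M) (hW : W ⊆ Ioc (M : ℤ) (2 * M)) :
    (W.card : ℝ) ^ 2 * S / (2 * M) ≤ PW S W := by
  classical
  have hM0 : (0 : ℝ) < M := by exact_mod_cast hM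
  have hS0 : (0 : ℝ) < S := by exact_mod_cast hS
  set B : ℕ := (M - 1) / S + 1 with hB
  have hBS : B * S ≤ 2 * M := by
    rw [hB, add_mul, one_mul]
    have := Nat.div_mul_le_self (M - 1) S
    omega
  -- the block of an element
  let f : ℤ → ℕ := fun m => ((m - M - 1) / S).toNat
  have hf : ∀ m ∈ W, f m ∈ range B := by
    intro m hm
    have h1 := hW hm
    rw [mem_Ioc] at h1
    rw [mem_range, hB]
    show ((m - M - 1) / S).toNat < (M - 1) / S + 1
    have h2 : (m - M - 1) / (S : ℤ) ≤ ((M - 1 : ℕ) : ℤ) / (S : ℤ) := by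
      apply Int.ediv_le_ediv (by exact_mod_cast hS)
      push_cast [Nat.cast_sub hM]
      omega
    have h3 : (((M - 1) / S : ℕ) : ℤ) = ((M - 1 : ℕ) : ℤ) / (S : ℤ) := by push_cast; rfl
    have h4 : 0 ≤ (m - M - 1) / (S : ℤ) := Int.ediv_nonneg (by omega) (by omega)
    omega
  have hclose : ∀ m ∈ W, ∀ m' ∈ W, f m = f m' → |m - m'| ≤ S := by
    intro m hm m' hm' hff
    have h1 := hW hm
    have h1' := hW hm'
    rw [mem_Ioc] at h1 h1'
    have hSi : (0 : ℤ) < S := by exact_mod_cast hS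
    have h4 : 0 ≤ (m - M - 1) / (S : ℤ) := Int.ediv_nonneg (by omega) (by omega)
    have h4' : 0 ≤ (m' - M - 1) / (S : ℤ) := Int.ediv_nonneg (by omega) (by omega)
    have h5 : (m - M - 1) / (S : ℤ) = (m' - M - 1) / (S : ℤ) := by
      have h6 : ((m - M - 1) / (S : ℤ)).toNat = ((m' - M - 1) / (S : ℤ)).toNat := hff
      omega
    have h7 := Int.emod_add_mul_ediv (m - M - 1) S
    have h8 := Int.emod_add_mul_ediv (m' - M - 1) S
    have h9 := Int.emod_nonneg (m - M - 1) hSi.ne'
    have h10 := Int.emod_lt_of_pos (m - M - 1) hSi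
    have h11 := Int.emod_nonneg (m' - M - 1) hSi.ne'
    have h12 := Int.emod_lt_of_pos (m' - M - 1) hSi
    rw [h5] at h7
    rw [abs_le]
    constructor <;> linarith
  have h1 : (W.card : ℝ) = ∑ b ∈ range B, ((W.filter (fun m => f m = b)).card : ℝ) := by
    have := card_eq_sum_card_fiberwise hf
    exact_mod_cast this
  have h2 : (∑ b ∈ range B, ((W.filter (fun m => f m = b)).card : ℝ)) ^ 2 ≤
      (range B).card * ∑ b ∈ range B, ((W.filter (fun m => f m = b)).card : ℝ) ^ 2 := sq_sum_le_card_mul_sum_sq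
  have h3 : ∑ b ∈ range B, ((W.filter (fun m => f m = b)).card : ℝ) ^ 2 ≤ PW S W := by
    have e1 : ∑ b ∈ range B, ((W.filter (fun m => f m = b)).card) ^ 2 ≤ PW S W := by
      unfold PW
      have e2 : ∀ b ∈ range B, (W.filter (fun m => f m = b)).card ^ 2 =
          ((W.filter (fun m => f m = b)) ×ˢ (W.filter (fun m => f m = b))).card := by
        intro b _
        rw [card_product, pow_two]
      rw [sum_congr rfl e2, ← card_biUnion]
      · apply card_le_card_of_injOn (fun x => (x.1, x.1 - x.2))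
        · intro x hx
          rw [mem_coe, mem_biUnion] at hx
          obtain ⟨b, hb, hx⟩ := hx
          rw [mem_product, mem_filter, mem_filter] at hx
          obtain ⟨⟨a1, a2⟩, a3, a4⟩ := hx
          rw [mem_coe, mem_filter, mem_product, mem_Icc]
          have := hclose x.1 a1 x.2 a3 (a2.trans a4.symm)
          rw [abs_le] at this
          refine ⟨⟨a1, this⟩, ?_⟩
          simp only [sub_sub_cancel]
          exact a3
        · intro x _ y _ hxy
          simp only [Prod.mk.injEq] at hxy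
          apply Prod.ext
          · exact hxy.1
          · have := hxy.2
            rw [hxy.1] at this
            linarith
      · intro b _ b' _ hbb
        rw [Function.onFun, disjoint_left]
        intro x hx hx'
        rw [mem_product, mem_filter, mem_filter] at hx hx'
        exact hbb (hx.1.2.symm.trans hx'.1.2)
    exact_mod_cast e1
  rw [← h1, card_range] at h2
  rw [div_le_iff₀ (by positivity)]
  have h4 : (B : ℝ) * S ≤ 2 * M := by exact_mod_cast hBS
  have h5 : (0 : ℝ) ≤ PW S W := Nat.cast_nonneg _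
  calc (W.card : ℝ) ^ 2 * S ≤ (B * ∑ b ∈ range B, ((W.filter (fun m => f m = b)).card : ℝ) ^ 2) * S := by gcongr
    _ ≤ (B * PW S W) * S := by gcongr
    _ = (B * S) * PW S W := by ring
    _ ≤ (2 * M) * PW S W := by gcongr
    _ = PW S W * (2 * M) := by ring

theorem t_QUAD : S_QUAD := by
  classical
  intro M S A hM hS hSM hA
  have hM0 : (0 : ℝ) < M := by exact_mod_cast hM
  have hS0 : (0 : ℝ) < S := by exact_mod_cast hS
  have hS1 : (1 : ℝ) ≤ S := by exact_mod_cast hS
  set I := Icc (-(S : ℤ)) S with hI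
  have hIc : (I.card : ℝ) ≤ 3 * S := by
    rw [hI, Int.card_Icc]
    have e1 : ((S : ℤ) + 1 - -(S : ℤ)).toNat = 2 * S + 1 := by omega
    rw [e1]
    push_cast
    linarith
  let As : ℤ → Finset ℤ := fun s => A.filter (fun m => m - s ∈ A)
  have h1 : ∑ s ∈ I, ((As s).card : ℝ) = PW S A := by
    have e1 : ∑ s ∈ I, (As s).card = PW S A := by
      unfold PW
      rw [card_filter, sum_product_right]
      apply sum_congr rfl
      intro s _
      show (A.filter (fun m => m - s ∈ A)).card = _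
      rw [card_filter]
    exact_mod_cast e1
  have h2 : (((A ×ˢ (I ×ˢ I)).filter (fun x => x.1 - x.2.1 ∈ A ∧ x.1 - x.2.2 ∈ A ∧
      x.1 - x.2.1 - x.2.2 ∈ A)).card : ℝ) = ∑ s ∈ I, (PW S (As s) : ℝ) := by
    have e1 : ((A ×ˢ (I ×ˢ I)).filter (fun x => x.1 - x.2.1 ∈ A ∧ x.1 - x.2.2 ∈ A ∧
      x.1 - x.2.1 - x.2.2 ∈ A)).card = ∑ s ∈ I, PW S (As s) := by
      rw [card_filter, sum_product]
      simp_rw [sum_product]
      rw [sum_comm]
      apply sum_congr rfl
      intro s _
      unfold PW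
      rw [card_filter, sum_product]
      show _ = ∑ m ∈ A.filter (fun m => m - s ∈ A), _
      rw [sum_filter]
      apply sum_congr rfl
      intro m hm
      by_cases h3 : m - s ∈ A
      · rw [if_pos h3]
        apply sum_congr rfl
        intro t _
        have e3 : m - s - t = m - t - s := by ring
        have e4 : (m - s ∈ A ∧ m - t ∈ A ∧ m - s - t ∈ A) ↔ m - t ∈ As s := by
          show _ ↔ m - t ∈ A.filter (fun m => m - s ∈ A)
          rw [mem_filter, e3]
          exact ⟨fun h => h.2, fun h => ⟨h3, h⟩⟩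
        exact if_congr e4 rfl rfl
      · rw [if_neg h3]
        apply sum_eq_zero
        intro t _
        rw [if_neg]
        rintro ⟨h4, -⟩
        exact h3 h4
    exact_mod_cast e1
  rw [h2]
  have h3 : ∀ s ∈ I, ((As s).card : ℝ) ^ 2 * S / (2 * M) ≤ PW S (As s) := by
    intro s _
    exact PW_ge M S (As s) hM hS hSM ((filter_subset _ _).trans hA)
  have h4 := PW_ge M S A hM hS hSM hA
  have h5 : (∑ s ∈ I, ((As s).card : ℝ)) ^ 2 ≤ I.card * ∑ s ∈ I, ((As s).card : ℝ) ^ 2 := sq_sum_le_card_mul_sum_sq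
  rw [h1] at h5
  have h6 : ((A.card : ℝ) ^ 2 * S / (2 * M)) ^ 2 ≤ (PW S A : ℝ) ^ 2 := by
    have e0 : 0 ≤ (A.card : ℝ) ^ 2 * S / (2 * M) := div_nonneg (mul_nonneg (sq_nonneg _) hS0.le) (by linarith)
    exact pow_le_pow_left₀ e0 h4 2
  have h7 : 0 ≤ ∑ s ∈ I, ((As s).card : ℝ) ^ 2 := sum_nonneg (fun _ _ => sq_nonneg _)
  have h8 : ((A.card : ℝ) ^ 2 * S / (2 * M)) ^ 2 ≤ 3 * S * ∑ s ∈ I, ((As s).card : ℝ) ^ 2 :=
    h6.trans (h5.trans (mul_le_mul_of_nonneg_right hIc h7))
  refine le_trans ?_ (sum_le_sum h3)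
  have h9 : ∑ s ∈ I, ((As s).card : ℝ) ^ 2 * S / (2 * M) = (∑ s ∈ I, ((As s).card : ℝ) ^ 2) * (S / (2 * M)) := by
    rw [sum_mul]
    apply sum_congr rfl
    intro s _
    ring
  rw [h9]
  generalize hT : ∑ s ∈ I, ((As s).card : ℝ) ^ 2 = T at *
  generalize hA' : (A.card : ℝ) = a at *
  have ha0 : 0 ≤ a := by rw [← hA']; exact Nat.cast_nonneg _
  have h10 : a ^ 4 * S / (12 * M ^ 2) ≤ T := by
    have e1 : (a ^ 2 * S / (2 * M)) ^ 2 = (3 * S) * (a ^ 4 * S / (12 * M ^ 2)) := by
      field_simp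
      ring
    rw [e1] at h8
    exact le_of_mul_le_mul_left h8 (by positivity)
  calc a ^ 4 * S ^ 2 / (64 * M ^ 3) ≤ a ^ 4 * S ^ 2 / (24 * M ^ 3) := by
        apply div_le_div_of_nonneg_left (by positivity) (by positivity)
        have : (0 : ℝ) < (M : ℝ) ^ 3 := by positivity
        linarith
    _ = (a ^ 4 * S / (12 * M ^ 2)) * (S / (2 * M)) := by
        field_simp
        ring
    _ ≤ _ := mul_le_mul_of_nonneg_right h10 (by positivity)

end Pool.Agent.E8helper66.GB
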