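import Pool.Agent.E8helper66.GB.Stm2

set_option autoImplicit false

namespace Pool.Agent.E8helper66.GB

open Finset

lemma extreme (s : Finset ℕ) (c f : ℕ → ℝ) (hf : ∀ a, 0 ≤ f a ∧ f a ≤ 1) :
    ∃ A ⊆ s, |∑ a ∈ s, f a * c a| ≤ |∑ a ∈ A, c a| := by
  classical
  rcases le_total 0 (∑ a ∈ s, f a * c a) with h | h
  · refine ⟨s.filter (fun a => 0 ≤ c a), filter_subset _ _, ?_⟩
    rw [abs_of_nonneg h]
    refine le_trans ?_ (le_abs_self _)
    rw [sum_filter]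
    apply sum_le_sum
    intro a _
    obtain ⟨h1, h2⟩ := hf a
    split_ifs with h3
    · nlinarith
    · push Not at h3
      nlinarith
  · refine ⟨s.filter (fun a => c a ≤ 0), filter_subset _ _, ?_⟩
    rw [abs_of_nonpos h]
    refine le_trans ?_ (neg_le_abs _)
    rw [sum_filter, ← sum_neg_distrib, ← sum_neg_distrib]
    apply sum_le_sum
    intro a _
    obtain ⟨h1, h2⟩ := hf a
    split_ifs with h3
    · nlinarith
    · push Not at h3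
      nlinarith

lemma extreme2 (s t : Finset ℕ) (M : ℕ → ℕ → ℝ) (K : ℝ)
    (h : ∀ A ⊆ s, ∀ B ⊆ t, |∑ a ∈ A, ∑ b ∈ B, M a b| ≤ K) (f g : ℕ → ℝ)
    (hf : ∀ a, 0 ≤ f a ∧ f a ≤ 1) (hg : ∀ b, 0 ≤ g b ∧ g b ≤ 1) :
    |∑ a ∈ s, ∑ b ∈ t, f a * g b * M a b| ≤ K := by
  have e1 : ∑ a ∈ s, ∑ b ∈ t, f a * g b * M a b = ∑ a ∈ s, f a * ∑ b ∈ t, g b * M a b := by
    apply sum_congr rfl
    intro a _
    rw [mul_sum]
    apply sum_congr rfl
    intro b _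
    ring
  obtain ⟨A, hA, h1⟩ := extreme s (fun a => ∑ b ∈ t, g b * M a b) f hf
  have e2 : ∑ a ∈ A, ∑ b ∈ t, g b * M a b = ∑ b ∈ t, g b * ∑ a ∈ A, M a b := by
    rw [sum_comm]
    apply sum_congr rfl
    intro b _
    rw [mul_sum]
  obtain ⟨B, hB, h2⟩ := extreme t (fun b => ∑ a ∈ A, M a b) g hg
  rw [e1]
  refine h1.trans ?_
  rw [e2]
  refine h2.trans ?_
  rw [sum_comm]
  exact h A hA B hB

theorem t_ESTW (hE : S_EST) : S_ESTW := by
  intro U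
  obtain ⟨B, hB⟩ := hE U
  refine ⟨B, fun K => ?_⟩
  obtain ⟨n₀, h0⟩ := hB K
  refine ⟨n₀, fun n hn z hz1 hz2 f g hf hg => ?_⟩
  exact extreme2 (Icc 1 n) (Icc 1 n) (fun a b => KL a b - KZ z a b) _
    (fun A hA B' hB' => h0 n hn z hz1 hz2 A hA B' hB') f g hf hg

end Pool.Agent.E8helper66.GB
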