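import Pool.Agent.E8helper66.GB.Stm

set_option autoImplicit false

/-!
# Project GB (helper66), second part: diameter at most five

The statements of the pieces which replace `S_STEP1`, `S_STEP2`, `S_NINE`.
-/

namespace Pool.Agent.E8helper66.GB

open Finset
open Pool.Agent.H373R2.T7 (lamz)
open Pool.Agent.R521.GG (R dg)

/-- GB-24 (ESTW): the estimate `S_EST` with weights -/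
def S_ESTW : Prop := ∀ U : ℕ, ∃ B : ℕ, ∀ K : ℕ, ∃ n₀ : ℕ, ∀ n : ℕ, n₀ ≤ n → ∀ z : ℕ, Real.log n ^ B ≤ z →
  (z : ℝ) ≤ Real.log n ^ K → ∀ f g : ℕ → ℝ, (∀ a, 0 ≤ f a ∧ f a ≤ 1) → (∀ b, 0 ≤ g b ∧ g b ≤ 1) →
  |∑ a ∈ Icc 1 n, ∑ b ∈ Icc 1 n, f a * g b * (KL a b - KZ z a b)| ≤ (n : ℝ) ^ 2 / Real.log n ^ U

/-- GB-19 (TWO): for almost all `a`, almost all the vertices of the class of `a` are at distance two from `a` -/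
def S_TWO : Prop := ∀ U : ℕ, ∃ n₀ : ℕ, ∀ n : ℕ, n₀ ≤ n → ∃ E ⊆ Icc 1 n, (E.card : ℝ) ≤ n / Real.log n ^ U ∧
  ∀ X ⊆ Icc 1 n, ((Icc 1 n \ X).card : ℝ) ≤ n / Real.log n ^ 5 → ∀ a ∈ Icc 1 n, a ∉ E →
  ∀ S ⊆ Icc 1 n, (∀ x ∈ S, Same a x) → (n : ℝ) / Real.log n ^ U ≤ S.card → ∃ x ∈ S, ∃ b ∈ X, R a b ∧ R x b

/-- GB-20 (EST3) -/
def S_EST3 : Prop := ∀ U : ℕ, ∃ B : ℕ, ∀ K : ℕ, ∃ n₀ : ℕ, ∀ n : ℕ, n₀ ≤ n → ∀ z : ℕ, Real.log n ^ B ≤ z →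
  (z : ℝ) ≤ Real.log n ^ K → ∀ A ⊆ Icc 1 n,
  |∑ a ∈ A, ∑ b ∈ Icc 1 n, KZ z a b * (ArithmeticFunction.vonMangoldt (2 * b + 3) - lamz z (2 * b + 3))| ≤
    (n : ℝ) ^ 2 / Real.log n ^ U

/-- GB-21 (LOC3) -/
def S_LOC3 : Prop := ∃ c₀ : ℝ, 0 < c₀ ∧ ∀ K : ℕ, ∃ n₀ : ℕ, ∀ n : ℕ, n₀ ≤ n → ∀ z : ℕ, 1 ≤ z → (z : ℝ) ≤ Real.log n ^ K →
  ∀ a ∈ Icc 1 n, 3 ∣ a → c₀ * n ≤ ∑ b ∈ Icc 1 n, KZ z a b * lamz z (2 * b + 3)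

/-- GB-22 (BR): for almost all `a` divisible by three there are many neighbours `b` of `a` with `2 b + 3` prime,
so that `b` and `b + 3` are adjacent -/
def S_BR : Prop := ∀ U : ℕ, ∃ n₀ : ℕ, ∀ n : ℕ, n₀ ≤ n → ∃ E ⊆ Icc 1 n, (E.card : ℝ) ≤ n / Real.log n ^ U ∧
  ∀ a ∈ Icc 1 n, a ∉ E → 3 ∣ a →
  (n : ℝ) / Real.log n ^ 4 ≤ (((Icc 1 n).filter (fun b => b + 3 ≤ n ∧ R a b ∧ (2 * b + 3).Prime)).card : ℝ)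

/-- GB-23 (FIVE): the combinatorial end -/
def S_FIVE : Prop := ∀ U : ℕ, ∃ n₀ : ℕ, ∀ n : ℕ, n₀ ≤ n → ∃ E ⊆ Icc 1 n, (E.card : ℝ) ≤ n / Real.log n ^ U ∧
  ∀ X ⊆ Icc 1 n, Disjoint X E → ((Icc 1 n \ X).card : ℝ) ≤ n / Real.log n ^ 6 →
  (∀ a ∈ X, (n : ℝ) / Real.log n ^ 3 ≤ dg X a) → ∀ a ∈ X, ∀ c ∈ X, Path X 5 a c

end Pool.Agent.E8helper66.GB
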