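import Pool.Agent.R521.GG.H2
import Pool.Agent.E8helper66.GB.Stm2

set_option autoImplicit false

/-!
# From the halves to the graphs: connected with diameter five
-/

namespace Pool.Agent.E8helper66.GB

open Finset
open Pool.Agent.R521.GG (R dg R_symm1)

lemma path_walk {V : Type} (G : SimpleGraph V) (n : ℕ) (X : Finset ℕ) (hX : X ⊆ Icc 1 n) (φ : ℕ → V)
    (hadj : ∀ a ∈ Icc 1 n, ∀ b ∈ Icc 1 n, R a b → G.Adj (φ a) (φ b)) (S : Set V) (hS : ∀ m ∈ X, φ m ∈ S)
    (c : ℕ) (hc : c ∈ X) (r : ℕ) : ∀ (a : ℕ) (ha : a ∈ X), Path X r a c →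
    ∃ w : (G.induce S).Walk ⟨φ a, hS a ha⟩ ⟨φ c, hS c hc⟩, w.length ≤ r := by
  induction r with
  | zero =>
    intro a ha hp
    have h1 : a = c := hp
    subst h1
    exact ⟨SimpleGraph.Walk.nil, le_rfl⟩
  | succ r ih =>
    intro a ha hp
    rcases hp with hp | ⟨v, hv, hR, hp⟩
    · obtain ⟨w, hw⟩ := ih a ha hp
      exact ⟨w, by omega⟩
    · obtain ⟨w, hw⟩ := ih v hv hp
      have e1 : (G.induce S).Adj ⟨φ a, hS a ha⟩ ⟨φ v, hS v hv⟩ := hadj _ (hX ha) _ (hX hv) hR
      refine ⟨SimpleGraph.Walk.cons e1 w, ?_⟩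
      rw [SimpleGraph.Walk.length_cons]
      omega

/-- one or an odd prime -/
def OP (m : ℕ) : Prop := m = 1 ∨ (m.Prime ∧ Odd m)

lemma OP_three {m : ℕ} (h : OP m) (h3 : 3 ∣ m) : m = 3 := by
  rcases h with rfl | ⟨h, -⟩
  · norm_num at h3
  · exact ((Nat.prime_dvd_prime_iff_eq Nat.prime_three h).1 h3).symm

lemma OP_odd {m : ℕ} (h : OP m) : m % 2 = 1 := by
  rcases h with rfl | ⟨-, h⟩
  · rfl
  · exact Nat.odd_iff.1 h

lemma struct {x y : ℕ} (hx : 1 ≤ x) (hy : 1 ≤ y) (hs : OP (x + y)) (hd : OP (Nat.dist x y)) :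
    (x + y) % 2 = 1 ∧ ¬ (3 ∣ x ∧ 3 ∣ y) ∧ (¬ 3 ∣ x → ¬ 3 ∣ y → x + y = 3 ∨ Nat.dist x y = 3) := by
  refine ⟨OP_odd hs, ?_, ?_⟩
  · rintro ⟨h1, h2⟩
    have := OP_three hs (Dvd.dvd.add h1 h2)
    omega
  · intro h1 h2
    by_cases h3 : 3 ∣ x + y
    · exact Or.inl (OP_three hs h3)
    · right
      apply OP_three hd
      have e1 : x % 3 = 1 ∨ x % 3 = 2 := by omega
      have e2 : y % 3 = 1 ∨ y % 3 = 2 := by omega
      have e3 : x % 3 = y % 3 := by omega
      rcases le_total x y with hxy | hxy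
      · rw [Nat.dist_eq_sub_of_le hxy]
        exact (Nat.modEq_iff_dvd' hxy).1 e3
      · rw [Nat.dist_eq_sub_of_le_right hxy]
        exact (Nat.modEq_iff_dvd' hxy).1 e3.symm

/-- a vertex which is not on an edge between the two parts -/
def Spec (a : ℕ) : Prop := a % 3 = 1 ∧ a % 5 = 1 ∧ a % 7 = 5 ∧ 10 ≤ a

lemma spec_adj {a y : ℕ} (ha : Spec a) (hy : 1 ≤ y) (h3 : ¬ 3 ∣ y) (hs : OP (a + y)) (hd : OP (Nat.dist a y)) : False := by
  obtain ⟨h1, h2, h3', h4⟩ := ha
  obtain ⟨-, -, h5⟩ := struct (by omega) hy hs hd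
  rcases h5 (by omega) h3 with h6 | h6
  · omega
  · simp only [Nat.dist] at h6
    have h7 : y = a + 3 ∨ y + 3 = a := by omega
    rcases h7 with h7 | h7
    · have h8 : 5 ∣ a + y := by omega
      rcases hs with hs | ⟨hs, -⟩
      · omega
      · have := (Nat.prime_dvd_prime_iff_eq Nat.prime_five hs).1 h8
        omega
    · have h8 : 7 ∣ a + y := by omega
      rcases hs with hs | ⟨hs, -⟩
      · omega
      · have := (Nat.prime_dvd_prime_iff_eq (by norm_num) hs).1 h8
        omega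

lemma low_walk {V : Type} (G : SimpleGraph V) (h : V → ℕ)
    (hG : ∀ u v, 1 ≤ h u → 1 ≤ h v → G.Adj u v → OP (h u + h v) ∧ OP (Nat.dist (h u) (h v))) (S : Set V)
    (hS : ∀ v ∈ S, 1 ≤ h v) (u v : S) (hu : Spec (h u.1)) (hv : Spec (h v.1)) (hu2 : h u.1 % 2 = 1) (hv2 : h v.1 % 2 = 0)
    (w : (G.induce S).Walk u v) : 5 ≤ w.length := by
  have hadj : ∀ x y : S, (G.induce S).Adj x y → OP (h x.1 + h y.1) ∧ OP (Nat.dist (h x.1) (h y.1)) := by
    intro x y hxy
    exact hG x.1 y.1 (hS _ x.2) (hS _ y.2) hxy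
  have hpar : ∀ x y : S, (G.induce S).Adj x y → (h x.1 + h y.1) % 2 = 1 := fun x y hxy => OP_odd (hadj x y hxy).1
  by_contra hcon
  push Not at hcon
  match w with
  | .nil => omega
  | .cons h1 .nil =>
    exact spec_adj hu (hS _ v.2) (by have := hv.1; omega) (hadj _ _ h1).1 (hadj _ _ h1).2
  | .cons h1 (.cons h2 .nil) =>
    have a1 := hpar _ _ h1
    have a2 := hpar _ _ h2
    omega
  | .cons (v := x) h1 (.cons (v := y) h2 (.cons h3 .nil)) =>
    have a1 := hadj _ _ h1
    have a2 := hadj _ _ h2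
    have a3 := hadj _ _ h3
    have b1 : 3 ∣ h x.1 := by
      by_contra hc
      exact spec_adj hu (hS _ x.2) hc a1.1 a1.2
    have b2 : 3 ∣ h y.1 := by
      by_contra hc
      refine spec_adj hv (hS _ y.2) hc ?_ ?_
      · rw [add_comm]; exact a3.1
      · rw [Nat.dist_comm]; exact a3.2
    exact (struct (hS _ x.2) (hS _ y.2) a2.1 a2.2).2.1 ⟨b1, b2⟩
  | .cons h1 (.cons h2 (.cons h3 (.cons h4 .nil))) =>
    have a1 := hpar _ _ h1
    have a2 := hpar _ _ h2
    have a3 := hpar _ _ h3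
    have a4 := hpar _ _ h4
    omega
  | .cons h1 (.cons h2 (.cons h3 (.cons h4 (.cons h5 w')))) =>
    simp only [SimpleGraph.Walk.length_cons] at hcon
    omega

/-- an element of a residue class in a large set -/
lemma exists_class (n r m : ℕ) (X : Finset ℕ) (hm : 0 < m) (hr : 1 ≤ r) (hrm : r ≤ m) (h : (Icc 1 n \ X).card < n / m) :
    ∃ k, m * k + r ∈ X := by
  by_contra hcon
  push Not at hcon
  have h1 : (range (n / m)).image (fun k => m * k + r) ⊆ Icc 1 n \ X := by
    intro x hx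
    rw [mem_image] at hx
    obtain ⟨k, hk, rfl⟩ := hx
    rw [mem_range] at hk
    rw [mem_sdiff, mem_Icc]
    refine ⟨⟨by omega, ?_⟩, hcon k⟩
    have h2 : m * (k + 1) ≤ m * (n / m) := Nat.mul_le_mul_left m hk
    have h3 : m * (n / m) ≤ n := Nat.mul_div_le n m
    calc m * k + r ≤ m * k + m := by omega
      _ = m * (k + 1) := by ring
      _ ≤ n := h2.trans h3
  have h2 := card_le_card h1
  rw [card_image_of_injective, card_range] at h2
  · omega
  · intro a b hab
    simp only at hab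
    have : m * a = m * b := by omega
    exact Nat.eq_of_mul_eq_mul_left hm this

/-- The main property of a graph `G` for given `U`, `n`: (i) there is a set `X` of vertices, which contains all the vertices
with at most `n / (log n) ^ U` exceptions, such that the subgraph induced on `X` is connected, of diameter exactly
five and of minimal degree at least `c n / (log n) ^ 2`; (ii) any two vertices with more than `n / (log n) ^ U` neighbours
are at a distance of at most seven. -/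
def DiamFive {V : Type} (G : SimpleGraph V) (c : ℝ) (U n : ℕ) : Prop :=
  (∃ X : Set V, (Xᶜ.ncard : ℝ) ≤ n / Real.log n ^ U ∧ (G.induce X).Connected ∧ (G.induce X).ediam = 5 ∧
    ∀ u : X, c * (n / Real.log n ^ 2) ≤ (((G.induce X).neighborSet u).ncard : ℝ)) ∧
  ∀ u v : V, (n : ℝ) / Real.log n ^ U < ((G.neighborSet u).ncard : ℝ) →
    (n : ℝ) / Real.log n ^ U < ((G.neighborSet v).ncard : ℝ) → G.edist u v ≤ 7

theorem bridge5 {V : Type} [Finite V] (G : SimpleGraph V) (n : ℕ) (X : Finset ℕ) (hX : X ⊆ Icc 1 n)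
    (φ : ℕ → V) (h : V → ℕ) (hφ : ∀ m ∈ Icc 1 n, h (φ m) = m) (hinj : Function.Injective h) (hbig : ∀ v, h v ≤ n)
    (hadj : ∀ a ∈ Icc 1 n, ∀ b ∈ Icc 1 n, R a b → G.Adj (φ a) (φ b))
    (hG : ∀ u v, 1 ≤ h u → 1 ≤ h v → G.Adj u v → OP (h u + h v) ∧ OP (Nat.dist (h u) (h v)))
    (hpath : ∀ a ∈ X, ∀ c ∈ X, Path X 5 a c) (c : ℝ) (U : ℕ)
    (hdeg : ∀ a ∈ X, c * (n / Real.log n ^ 2) ≤ dg X a)
    (hcard : ((Icc 1 n \ X).card : ℝ) + 1 ≤ n / Real.log n ^ U) (hcard2 : (Icc 1 n \ X).card < n / 210 ) :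
    DiamFive G c U n := by
  classical
  have hφh : ∀ v, h v ∈ X → φ (h v) = v := fun v hv => hinj (hφ _ (hX hv))
  set S : Set V := {v | h v ∈ X} with hS
  have hYφ : ∀ m ∈ X, φ m ∈ S := by
    intro m hm
    show h (φ m) ∈ X
    rw [hφ m (hX hm)]
    exact hm
  have hcompl : ((Sᶜ).ncard : ℝ) ≤ n / Real.log n ^ U := by
    refine le_trans ?_ hcard
    have h1 : h '' Sᶜ ⊆ ((insert 0 (Icc 1 n \ X) : Finset ℕ) : Set ℕ) := by
      rintro m ⟨v, hv, rfl⟩
      have hv' : h v ∉ X := hv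
      rw [coe_insert, Set.mem_insert_iff, mem_coe, mem_sdiff, mem_Icc]
      have := hbig v
      rcases Nat.eq_zero_or_pos (h v) with h0 | h0
      · exact Or.inl h0
      · exact Or.inr ⟨⟨h0, this⟩, hv'⟩
    have h2 : (Sᶜ).ncard ≤ (Icc 1 n \ X).card + 1 := by
      rw [← Set.ncard_image_of_injective _ hinj]
      refine (Set.ncard_le_ncard h1 (Finset.finite_toSet _)).trans ?_
      rw [Set.ncard_coe_finset]
      exact card_insert_le _ _
    exact_mod_cast h2
  have hwalk : ∀ u v : S, ∃ w : (G.induce S).Walk u v, w.length ≤ 5 := by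
    intro u v
    obtain ⟨w, hw⟩ := path_walk G n X hX φ hadj S hYφ (h v.1) v.2 5 (h u.1) u.2 (hpath _ u.2 _ v.2)
    have e1 : (⟨φ (h u.1), hYφ _ u.2⟩ : S) = u := Subtype.ext (hφh u.1 u.2)
    have e2 : (⟨φ (h v.1), hYφ _ v.2⟩ : S) = v := Subtype.ext (hφh v.1 v.2)
    exact ⟨w.copy e1 e2, by rw [SimpleGraph.Walk.length_copy]; exact hw⟩
  have hS1 : ∀ v ∈ S, 1 ≤ h v := by
    intro v hv
    have := hX hv
    rw [mem_Icc] at this
    exact this.1
  obtain ⟨k1, hk1⟩ := exists_class n (61 + 0) 210 X (by norm_num) (by norm_num) (by norm_num) hcard2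
  obtain ⟨k2, hk2⟩ := exists_class n 166 210 X (by norm_num) (by norm_num) (by norm_num) hcard2
  have hne : Nonempty S := ⟨⟨φ _, hYφ _ hk1⟩⟩
  refine ⟨⟨S, hcompl, ?_, ?_, ?_⟩, ?_⟩
  · rw [SimpleGraph.connected_iff]
    refine ⟨fun u v => ?_, hne⟩
    obtain ⟨w, -⟩ := hwalk u v
    exact w.reachable
  · apply le_antisymm
    · apply SimpleGraph.ediam_le_of_edist_le
      intro u v
      obtain ⟨w, hw⟩ := hwalk u v
      refine (SimpleGraph.edist_le w).trans ?_
      exact_mod_cast hw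
    · have hle : (G.induce S).edist ⟨φ _, hYφ _ hk1⟩ ⟨φ _, hYφ _ hk2⟩ ≤ (G.induce S).ediam :=
        SimpleGraph.edist_le_ediam
      refine le_trans ?_ hle
      have hu : h (φ (210 * k1 + (61 + 0))) = 210 * k1 + (61 + 0) := hφ _ (hX hk1)
      have hv : h (φ (210 * k2 + 166)) = 210 * k2 + 166 := hφ _ (hX hk2)
      unfold SimpleGraph.edist
      apply le_iInf
      intro w
      have h5 := low_walk G h hG S hS1 _ _ (by show Spec (h (φ (210 * k1 + (61 + 0)))); rw [hu]; unfold Spec; omega)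
        (by show Spec (h (φ (210 * k2 + 166))); rw [hv]; unfold Spec; omega)
        (by show h (φ (210 * k1 + (61 + 0))) % 2 = 1; rw [hu]; omega)
        (by show h (φ (210 * k2 + 166)) % 2 = 0; rw [hv]; omega) w
      exact_mod_cast h5
  · intro u
    refine (hdeg (h u.1) u.2).trans ?_
    have hsub : ((X.filter (fun b => R (h u.1) b) : Finset ℕ) : Set ℕ) ⊆
        (fun v : {v : V // v ∈ S} => h v.1) '' ((G.induce S).neighborSet u) := by
      intro m hm
      rw [mem_coe, mem_filter] at hm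
      refine ⟨⟨φ m, hYφ m hm.1⟩, ?_, hφ m (hX hm.1)⟩
      show G.Adj u.1 (φ m)
      rw [← hφh u.1 u.2]
      exact hadj _ (hX u.2) _ (hX hm.1) hm.2
    have h3 : dg X (h u.1) ≤ ((G.induce S).neighborSet u).ncard := by
      unfold dg
      rw [← Set.ncard_coe_finset]
      refine (Set.ncard_le_ncard hsub (Set.toFinite _)).trans ?_
      exact Set.ncard_image_le (Set.toFinite _)
    exact_mod_cast h3
  · intro u v hu hv
    have hnb : ∀ u : V, (n : ℝ) / Real.log n ^ U < ((G.neighborSet u).ncard : ℝ) → ∃ u' ∈ S, G.Adj u u' := by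
      intro u hu
      by_contra hcon
      push Not at hcon
      have h1 : G.neighborSet u ⊆ Sᶜ := by
        intro x hx hxS
        exact hcon x hxS hx
      have h2 := Set.ncard_le_ncard h1 (Set.toFinite _)
      have h3 : ((G.neighborSet u).ncard : ℝ) ≤ ((Sᶜ).ncard : ℝ) := by exact_mod_cast h2
      linarith
    obtain ⟨u', hu', hau⟩ := hnb u hu
    obtain ⟨v', hv', hav⟩ := hnb v hv
    obtain ⟨w, hw⟩ := hwalk ⟨u', hu'⟩ ⟨v', hv'⟩
    obtain ⟨w2, hw2⟩ : ∃ w2 : G.Walk u' v', w2.length ≤ 5 :=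
      ⟨w.map (SimpleGraph.Embedding.induce S).toHom, (SimpleGraph.Walk.length_map _ _).le.trans hw⟩
    have h2 := SimpleGraph.edist_le (SimpleGraph.Walk.cons hau (w2.append
      (SimpleGraph.Walk.cons hav.symm SimpleGraph.Walk.nil)))
    refine h2.trans ?_
    rw [SimpleGraph.Walk.length_cons, SimpleGraph.Walk.length_append, SimpleGraph.Walk.length_cons,
      SimpleGraph.Walk.length_nil]
    have : w2.length + (0 + 1) + 1 ≤ 7 := by omega
    exact_mod_cast this

/-- An odd prime less than `2 n`. -/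
def OddPrimeBelow (n m : ℕ) : Prop := m.Prime ∧ Odd m ∧ m < 2 * n

/-- The finite Goldbach graph `G_n` on `{0, 2, 4, …, 2 n}`: distinct `a`, `b` are adjacent iff
`(a + b)/2` and `|a - b|/2` are odd primes less than `2 n`. -/
def goldbach (n : ℕ) : SimpleGraph {a : ℕ // Even a ∧ a ≤ 2 * n} where
  Adj a b := a ≠ b ∧ OddPrimeBelow n (((a : ℕ) + b) / 2) ∧ OddPrimeBelow n (Nat.dist a b / 2)
  symm := ⟨fun a b h => ⟨h.1.symm, by rw [add_comm (b : ℕ)]; exact h.2.1,
    by rw [Nat.dist_comm]; exact h.2.2⟩⟩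
  loopless := ⟨fun _ h => h.1 rfl⟩

/-- The finite near Goldbach graph `G(n)` on `{2, 4, …, 2 n}`: distinct `a`, `b` are adjacent iff
each of `(a + b)/2` and `|a - b|/2` is `1` or an odd prime less than `2 n`. -/
def nearGoldbach (n : ℕ) : SimpleGraph {a : ℕ // Even a ∧ 2 ≤ a ∧ a ≤ 2 * n} where
  Adj a b := a ≠ b ∧ (((a : ℕ) + b) / 2 = 1 ∨ OddPrimeBelow n (((a : ℕ) + b) / 2)) ∧
    (Nat.dist a b / 2 = 1 ∨ OddPrimeBelow n (Nat.dist a b / 2))
  symm := ⟨fun a b h => ⟨h.1.symm, by rw [add_comm (b : ℕ)]; exact h.2.1,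
    by rw [Nat.dist_comm]; exact h.2.2⟩⟩
  loopless := ⟨fun _ h => h.1 rfl⟩

lemma R_lt {n a b : ℕ} (ha : a ∈ Icc 1 n) (hb : b ∈ Icc 1 n) (h : R a b) : a ≠ b ∧ a + b < 2 * n ∧ Nat.dist a b < 2 * n := by
  rw [mem_Icc] at ha hb
  have hne : a ≠ b := by
    rintro rfl
    have := h.2.1
    rw [Nat.dist_self] at this
    exact Nat.not_prime_zero this
  refine ⟨hne, by omega, ?_⟩
  simp only [Nat.dist]
  omega

lemma dist_two (a b : ℕ) : Nat.dist (2 * a) (2 * b) / 2 = Nat.dist a b := by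
  simp only [Nat.dist]
  omega

lemma half_add {a b : ℕ} (ha : Even a) (hb : Even b) : (a + b) / 2 = a / 2 + b / 2 := by
  obtain ⟨x, rfl⟩ := ha
  obtain ⟨y, rfl⟩ := hb
  omega

lemma half_dist {a b : ℕ} (ha : Even a) (hb : Even b) : Nat.dist a b / 2 = Nat.dist (a / 2) (b / 2) := by
  obtain ⟨x, rfl⟩ := ha
  obtain ⟨y, rfl⟩ := hb
  simp only [Nat.dist]
  omega

lemma OP_of {n m : ℕ} (h : m = 1 ∨ OddPrimeBelow n m) : OP m := by
  rcases h with h | ⟨h1, h2, -⟩
  · exact Or.inl h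
  · exact Or.inr ⟨h1, h2⟩

theorem final (hF : S_FIVE) (hM : ∃ c : ℝ, 0 < c ∧ ∀ U : ℕ, ∃ n₀ : ℕ, ∀ n : ℕ, n₀ ≤ n → ∃ X ⊆ Icc 1 n,
      ((Icc 1 n \ X).card : ℝ) ≤ n / Real.log n ^ U ∧ (∀ a ∈ X, c * (n / Real.log n ^ 2) ≤ dg X a)) :
    ∃ c : ℝ, 0 < c ∧ ∀ U : ℕ, ∃ N : ℕ, ∀ n : ℕ, N ≤ n →
      DiamFive (goldbach n) c U n ∧ DiamFive (nearGoldbach n) c U n := by
  classical
  obtain ⟨c, hc0, hmain⟩ := hM
  refine ⟨c / 2, by positivity, fun U => ?_⟩
  obtain ⟨n₁, h1⟩ := hmain (U + 8)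
  obtain ⟨n₄, h4⟩ := hF (U + 8)
  have hlogt : Filter.Tendsto (fun n : ℕ => Real.log n) Filter.atTop Filter.atTop :=
    Real.tendsto_log_atTop.comp tendsto_natCast_atTop_atTop
  obtain ⟨n₂, h2⟩ := Filter.eventually_atTop.1 (hlogt.eventually_ge_atTop (max 2000 (2 / c)))
  -- `n / log ^ (U + 8) n` is at least one
  have hbig : ∃ n₃ : ℕ, ∀ n : ℕ, n₃ ≤ n → 1 ≤ (n : ℝ) / Real.log n ^ (U + 8) := by
    have h3 := isLittleO_log_rpow_rpow_atTop (s := (1 : ℝ)) ((U + 8 : ℕ) : ℝ) (by norm_num)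
    have h4 := h3.bound (c := 1) (by norm_num)
    have h5 := (tendsto_natCast_atTop_atTop (R := ℝ)).eventually h4
    obtain ⟨n₀, h0⟩ := Filter.eventually_atTop.1 h5
    refine ⟨n₀ + 3, fun n hn => ?_⟩
    have h6 := h0 n (by omega)
    have hn3 : (1 : ℝ) < n := by exact_mod_cast (by omega : 1 < n)
    have hl : 0 < Real.log n := Real.log_pos hn3
    rw [Real.norm_of_nonneg (by positivity), Real.norm_of_nonneg (by positivity), Real.rpow_natCast, Real.rpow_one, one_mul] at h6
    rw [le_div_iff₀ (by positivity), one_mul]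
    exact h6
  obtain ⟨n₃, h3⟩ := hbig
  refine ⟨n₁ + n₂ + n₃ + n₄ + 1000, fun n hn => ?_⟩
  obtain ⟨X₀, hX₀, hX₀c, hX₀d⟩ := h1 n (by omega)
  obtain ⟨E, hE, hEc, hEp⟩ := h4 n (by omega)
  have a2 := h2 n (by omega)
  have a3 := h3 n (by omega)
  have hL : 2000 ≤ Real.log n := (le_max_left _ _).trans a2
  have hLc : 2 / c ≤ Real.log n := (le_max_right _ _).trans a2
  have hL0 : 0 < Real.log n := by linarith
  have hL1 : 1 ≤ Real.log n := by linarith
  set L := Real.log n with hLd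
  have hn0 : (0 : ℝ) < n := by exact_mod_cast (by omega : 0 < n)
  obtain ⟨X, hXd⟩ : ∃ X, X = X₀ \ E := ⟨_, rfl⟩
  have hXI : X ⊆ Icc 1 n := by rw [hXd]; exact sdiff_subset.trans hX₀
  have hcd : ((Icc 1 n \ X).card : ℝ) ≤ 2 * (n / L ^ (U + 8)) := by
    have e1 : Icc 1 n \ X ⊆ (Icc 1 n \ X₀) ∪ E := by
      intro x hx
      rw [hXd, mem_sdiff, mem_sdiff] at hx
      rw [mem_union, mem_sdiff]
      tauto
    have e2 := (card_le_card e1).trans (card_union_le _ _)
    have e3 : ((Icc 1 n \ X).card : ℝ) ≤ (Icc 1 n \ X₀).card + E.card := by exact_mod_cast e2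
    linarith
  have hV : ∀ k : ℕ, k ≤ U + 7 → 2 * (n / L ^ (U + 8)) ≤ (1 / 1000) * (n / L ^ k) := by
    intro k hk
    have e1 : L ^ (U + 8) = L ^ k * L ^ (U + 7 - k) * L := by
      rw [← pow_add, ← pow_succ]
      congr 1
      omega
    have e2 : (1 : ℝ) ≤ L ^ (U + 7 - k) := one_le_pow₀ hL1
    have e3 : (n : ℝ) / L ^ (U + 8) ≤ (n / L ^ k) / L := by
      rw [e1, div_div]
      apply div_le_div_of_nonneg_left hn0.le (by positivity)
      apply mul_le_mul_of_nonneg_right _ hL0.le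
      exact le_mul_of_one_le_right (by positivity) e2
    have e4 : (n / L ^ k) / L ≤ (n / L ^ k) / 2000 := by
      apply div_le_div_of_nonneg_left (by positivity) (by norm_num) hL
    linarith
  have hc6 : ((Icc 1 n \ X).card : ℝ) ≤ n / L ^ 6 := by
    have e1 := hV 6 (by omega)
    have e2 : 0 < (n : ℝ) / L ^ 6 := by positivity
    linarith
  have hdegX : ∀ a ∈ X, c / 2 * (n / L ^ 2) ≤ dg X a := by
    intro a ha
    rw [hXd, mem_sdiff] at ha
    have e1 := hX₀d a ha.1
    have e2 : X₀.filter (fun b => R a b) ⊆ (X.filter (fun b => R a b)) ∪ E := by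
      intro x hx
      rw [mem_filter] at hx
      rw [mem_union, mem_filter, hXd, mem_sdiff]
      tauto
    have e3 := (card_le_card e2).trans (card_union_le _ _)
    have e4 : (dg X₀ a : ℝ) ≤ dg X a + E.card := by
      unfold dg
      exact_mod_cast e3
    have e5 : (n : ℝ) / L ^ (U + 8) ≤ c / 2 * (n / L ^ 2) := by
      have e6 : (n : ℝ) / L ^ (U + 8) ≤ n / L ^ 3 := by
        apply div_le_div_of_nonneg_left hn0.le (by positivity)
        exact pow_le_pow_right₀ hL1 (by omega)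
      have e7 : (n : ℝ) / L ^ 3 = (1 / L) * (n / L ^ 2) := by
        field_simp
      have e8 : 1 / L ≤ c / 2 := by
        rw [div_le_iff₀ hL0]
        rw [div_le_iff₀ hc0] at hLc
        linarith
      have e9 : (1 / L) * ((n : ℝ) / L ^ 2) ≤ c / 2 * (n / L ^ 2) :=
        mul_le_mul_of_nonneg_right e8 (by positivity)
      linarith
    linarith
  have hdeg3 : ∀ a ∈ X, (n : ℝ) / L ^ 3 ≤ dg X a := by
    intro a ha
    refine le_trans ?_ (hdegX a ha)
    have e7 : (n : ℝ) / L ^ 3 = (1 / L) * (n / L ^ 2) := by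
      field_simp
    have e8 : 1 / L ≤ c / 2 := by
      rw [div_le_iff₀ hL0]
      rw [div_le_iff₀ hc0] at hLc
      linarith
    rw [e7]
    exact mul_le_mul_of_nonneg_right e8 (by positivity)
  have hdisj : Disjoint X E := by
    rw [hXd]
    exact sdiff_disjoint
  have hpath := hEp X hXI hdisj hc6 hdeg3
  have hcount : ((Icc 1 n \ X).card : ℝ) + 1 ≤ n / L ^ U := by
    have e1 := hV U (by omega)
    have e2 : 0 < (n : ℝ) / L ^ U := by positivity
    linarith
  have hcount2 : (Icc 1 n \ X).card < n / 210 := by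
    have e1 := hV 0 (by omega)
    rw [pow_zero, div_one] at e1
    have e2 : ((Icc 1 n \ X).card : ℝ) * 1000 ≤ n := by linarith
    have e3 : (Icc 1 n \ X).card * 1000 ≤ n := by exact_mod_cast e2
    omega
  haveI i1 : Finite {a : ℕ // Even a ∧ a ≤ 2 * n} :=
    Finite.of_injective (β := Fin (2 * n + 1)) (fun v => ⟨v.1, by have := v.2.2; omega⟩) (by
      intro u v huv
      apply Subtype.ext
      exact Fin.mk.inj_iff.1 huv)
  haveI i2 : Finite {a : ℕ // Even a ∧ 2 ≤ a ∧ a ≤ 2 * n} :=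
    Finite.of_injective (β := Fin (2 * n + 1)) (fun v => ⟨v.1, by have := v.2.2.2; omega⟩) (by
      intro u v huv
      apply Subtype.ext
      exact Fin.mk.inj_iff.1 huv)
  constructor
  · -- the Goldbach graph
    exact bridge5 (V := {a : ℕ // Even a ∧ a ≤ 2 * n}) (G := goldbach n) (n := n) (X := X) (hX := hXI)
      (φ := fun m => if hm : m ≤ n then ⟨2 * m, even_two_mul m, by omega⟩ else ⟨0, ⟨0, rfl⟩, by omega⟩)
      (h := fun v => v.1 / 2)
      (hφ := by
        intro m hm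
        rw [mem_Icc] at hm
        simp only [hm.2, dif_pos]
        omega)
      (hinj := by
        intro u v huv
        apply Subtype.ext
        obtain ⟨⟨a, hu⟩, _⟩ := u.2
        obtain ⟨⟨b, hv⟩, _⟩ := v.2
        simp only at huv
        omega)
      (hbig := by
        intro v
        have := v.2.2
        show v.1 / 2 ≤ n
        omega)
      (hadj := by
        intro a ha b hb hR
        obtain ⟨r1, r2, r3⟩ := R_lt ha hb hR
        have ha' := (mem_Icc.1 ha).2
        have hb' := (mem_Icc.1 hb).2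
        simp only [ha', hb', dif_pos]
        refine ⟨?_, ⟨?_, ?_, ?_⟩, ⟨?_, ?_, ?_⟩⟩
        · intro h
          have := congrArg Subtype.val h
          simp only at this
          omega
        · show ((2 * a + 2 * b) / 2).Prime
          rw [← mul_add, Nat.mul_div_cancel_left _ (by norm_num)]
          exact hR.1.1
        · show Odd ((2 * a + 2 * b) / 2)
          rw [← mul_add, Nat.mul_div_cancel_left _ (by norm_num)]
          exact hR.1.2
        · show (2 * a + 2 * b) / 2 < 2 * n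
          omega
        · show (Nat.dist (2 * a) (2 * b) / 2).Prime
          rw [dist_two]
          exact hR.2.1
        · show Odd (Nat.dist (2 * a) (2 * b) / 2)
          rw [dist_two]
          exact hR.2.2
        · show Nat.dist (2 * a) (2 * b) / 2 < 2 * n
          rw [dist_two]
          exact r3)
      (hG := by
        intro u v _ _ huv
        obtain ⟨_, h5, h6⟩ := huv
        rw [half_add u.2.1 v.2.1] at h5
        rw [half_dist u.2.1 v.2.1] at h6
        exact ⟨OP_of (Or.inr h5), OP_of (Or.inr h6)⟩)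
      (hpath := hpath) (c := c / 2) (U := U) (hdeg := hdegX) (hcard := hcount) (hcard2 := hcount2)
  · have hn1 : 1 ≤ n := by omega
    exact bridge5 (V := {a : ℕ // Even a ∧ 2 ≤ a ∧ a ≤ 2 * n}) (G := nearGoldbach n) (n := n) (X := X) (hX := hXI)
      (φ := fun m => if hm : 1 ≤ m ∧ m ≤ n then ⟨2 * m, even_two_mul m, by omega, by omega⟩ else ⟨2, even_two, by omega, by omega⟩)
      (h := fun v => v.1 / 2)
      (hφ := by
        intro m hm
        rw [mem_Icc] at hm
        simp only [hm, and_self, dif_pos]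
        omega)
      (hinj := by
        intro u v huv
        apply Subtype.ext
        obtain ⟨⟨a, hu⟩, _⟩ := u.2
        obtain ⟨⟨b, hv⟩, _⟩ := v.2
        simp only at huv
        omega)
      (hbig := by
        intro v
        have := v.2.2
        show v.1 / 2 ≤ n
        omega)
      (hadj := by
        intro a ha b hb hR
        obtain ⟨r1, r2, r3⟩ := R_lt ha hb hR
        have ha' := mem_Icc.1 ha
        have hb' := mem_Icc.1 hb
        simp only [ha', hb', and_self, dif_pos]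
        refine ⟨?_, Or.inr ⟨?_, ?_, ?_⟩, Or.inr ⟨?_, ?_, ?_⟩⟩
        · intro h
          have := congrArg Subtype.val h
          simp only at this
          omega
        · show ((2 * a + 2 * b) / 2).Prime
          rw [← mul_add, Nat.mul_div_cancel_left _ (by norm_num)]
          exact hR.1.1
        · show Odd ((2 * a + 2 * b) / 2)
          rw [← mul_add, Nat.mul_div_cancel_left _ (by norm_num)]
          exact hR.1.2
        · show (2 * a + 2 * b) / 2 < 2 * n
          omega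
        · show (Nat.dist (2 * a) (2 * b) / 2).Prime
          rw [dist_two]
          exact hR.2.1
        · show Odd (Nat.dist (2 * a) (2 * b) / 2)
          rw [dist_two]
          exact hR.2.2
        · show Nat.dist (2 * a) (2 * b) / 2 < 2 * n
          rw [dist_two]
          exact r3)
      (hG := by
        intro u v _ _ huv
        obtain ⟨_, h5, h6⟩ := huv
        rw [half_add u.2.1 v.2.1] at h5
        rw [half_dist u.2.1 v.2.1] at h6
        exact ⟨OP_of h5, OP_of h6⟩)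
      (hpath := hpath) (c := c / 2) (U := U) (hdeg := hdegX) (hcard := hcount) (hcard2 := hcount2)

end Pool.Agent.E8helper66.GB
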