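import Pool.Agent.H373R2.T7.SupE2
import Pool.Agent.R521.GG.Stms

set_option autoImplicit false

/-!
# Project GB (helper66): Goldbach graphs, one component of diameter at most 9 (MP_443e5f_co)

Definitions and the exact statements of the pieces.
-/

namespace Pool.Agent.E8helper66.GB

open Finset
open Pool.Agent.H807R2.Dav (ee)
open Pool.Agent.H373R2.T7 (lamz pz Vz)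
open Pool.Agent.R521.GG (R dg)

/-- the distance to the nearest integer -/
noncomputable def nn (x : ℝ) : ℝ := ‖(x : UnitAddCircle)‖

/-- the exponential sums of `E` are at most `A` -/
def SupLe (N : ℕ) (E : ℕ → ℂ) (A : ℝ) : Prop :=
  ∀ α : ℝ, ‖∑ y ∈ Icc 1 N, E y * ee ((y : ℝ) * α)‖ ≤ A

/-- the dual function `F(x) = ∑_y E(y) κ(y - x) e(θ(y - x) x)` -/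
noncomputable def FF (N : ℕ) (E : ℕ → ℂ) (κ : ℤ → ℂ) (θ : ℤ → ℝ) (x : ℕ) : ℂ :=
  ∑ y ∈ Icc 1 N, E y * (κ ((y : ℤ) - x) * ee (θ ((y : ℤ) - x) * x))

/-- the bilinear sum of Vaughan's method -/
noncomputable def BB (M L X X' : ℕ) (a b F : ℕ → ℂ) : ℂ :=
  ∑ m ∈ Ioc M (2 * M), ∑ l ∈ Ioc L (2 * L), a m * b l * (if X < m * l ∧ m * l ≤ X' then F (m * l) else 0)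

/-- GB-1 (REC) -/
def S_REC : Prop := ∀ (Ψ c ε η : ℝ) (M : ℕ) (a : ℤ) (S : Finset ℤ), S ⊆ Ico a (a + M) → 0 < η → η ≤ 1 →
  η * M ≤ S.card → 0 ≤ ε → ε ≤ η / 64 → 64 / η ^ 2 ≤ M → (∀ m ∈ S, nn (m * Ψ + c) ≤ ε) →
  ∃ q : ℕ, 1 ≤ q ∧ (q : ℝ) ≤ 2 / η ∧ nn (q * Ψ) ≤ 64 * ε / (η ^ 2 * M)

/-- GB-2 (REL) -/
def S_REL : Prop := ∃ C : ℕ, ∀ (T ε : ℝ) (M S : ℕ) (s₁ s₂ : ℤ) (φ₁ φ₂ φ₁₂ α : ℝ) (A : Finset ℤ),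
  2 ≤ T → A ⊆ Ioc (M : ℤ) (2 * M) → (M : ℝ) / T ≤ A.card → T ^ C ≤ M → 0 ≤ ε → |s₁| ≤ S → |s₂| ≤ S →
  1 ≤ S → S ≤ M → T ^ C * (S * ε) ≤ 1 →
  (∀ m ∈ A, ∃ t : ℝ, nn (m * t - α) ≤ ε ∧ nn (((m : ℝ) - s₁) * (t - φ₁) - α) ≤ ε ∧
    nn (((m : ℝ) - s₂) * (t - φ₂) - α) ≤ ε ∧ nn (((m : ℝ) - s₁ - s₂) * (t - φ₁₂) - α) ≤ ε) →
  ∃ q : ℕ, 1 ≤ q ∧ (q : ℝ) ≤ T ^ C ∧ nn (q * (s₂ * φ₁)) ≤ T ^ C * ε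

/-- GB-3 (QUAD) -/
def S_QUAD : Prop := ∀ (M S : ℕ) (A : Finset ℤ), 1 ≤ M → 1 ≤ S → S ≤ M → A ⊆ Ioc (M : ℤ) (2 * M) →
  (A.card : ℝ) ^ 4 * S ^ 2 / (64 * M ^ 3) ≤
    (((A ×ˢ (Icc (-(S : ℤ)) S ×ˢ Icc (-(S : ℤ)) S)).filter (fun x => x.1 - x.2.1 ∈ A ∧ x.1 - x.2.2 ∈ A ∧
      x.1 - x.2.1 - x.2.2 ∈ A)).card : ℝ)

/-- GB-4 (CORE). An element of `G` is `(k, m, h)`. -/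
def S_CORE : Prop := ∃ C : ℕ, ∀ (T : ℝ) (N M L : ℕ) (θ α : ℤ → ℝ) (G : Finset (ℤ × ℤ × ℤ)),
  2 ≤ T → Real.log N ≤ T → T ^ C ≤ M → M ≤ L → M * L ≤ N → (N : ℝ) ^ 2 / T ≤ G.card →
  (∀ g ∈ G, |g.1| ≤ L ∧ (M : ℤ) < g.2.1 ∧ g.2.1 ≤ 2 * M ∧ |g.2.2| ≤ N ∧ |g.2.2 + g.2.1 * g.1| ≤ N ∧
    nn (g.2.1 * (θ g.2.2 - θ (g.2.2 + g.2.1 * g.1)) - α g.1) ≤ T / L) →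
  ∃ P : Finset (ℤ × ℤ), (N : ℝ) ^ 2 / T ^ C ≤ P.card ∧ ∀ p ∈ P, (∃ g ∈ G, g.2.2 = p.1) ∧ (∃ g ∈ G, g.2.2 = p.2) ∧
    ∃ q : ℕ, 1 ≤ q ∧ (q : ℝ) ≤ T ^ C ∧ nn (q * (θ p.1 - θ p.2)) ≤ T ^ C / N

/-- GB-5 (PIG) -/
def S_PIG : Prop := ∃ C : ℕ, ∀ (T T' : ℝ) (N : ℕ) (θ : ℤ → ℝ) (P : Finset (ℤ × ℤ)),
  2 ≤ T → 2 ≤ T' → 1 ≤ N → (N : ℝ) ^ 2 / T ≤ P.card →
  (∀ p ∈ P, |p.1| ≤ N ∧ |p.2| ≤ N ∧ ∃ q : ℕ, 1 ≤ q ∧ (q : ℝ) ≤ T ∧ nn (q * (θ p.1 - θ p.2)) ≤ T / N) →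
  ∃ (β : ℝ) (H : Finset ℤ), N / (T ^ C * T') ≤ H.card ∧ ∀ h ∈ H, (∃ p ∈ P, p.2 = h) ∧ nn (θ h - β) ≤ 1 / (T' * N)

/-- GB-6 (CS) -/
def S_CS : Prop := ∃ C : ℕ, ∀ (T : ℝ) (N M L X X' : ℕ) (E : ℕ → ℂ) (κ : ℤ → ℂ) (θ : ℤ → ℝ) (a b : ℕ → ℂ) (A B : ℝ),
  2 ≤ T → 1 ≤ M → 1 ≤ L → M * L ≤ N → X' ≤ N → (∀ y ∈ Icc 1 N, ‖E y‖ ≤ T) → (∀ h, ‖κ h‖ ≤ 1) → 0 ≤ A → 0 ≤ B →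
  ∑ m ∈ Ioc M (2 * M), ‖a m‖ ^ 2 ≤ A * M → ∑ l ∈ Ioc L (2 * L), ‖b l‖ ^ 2 ≤ B * L →
  A * B * ((N : ℝ) ^ 2 / T) ^ 2 < ‖BB M L X X' a b (FF N E κ θ)‖ ^ 2 →
  ∃ (α : ℤ → ℝ) (G : Finset (ℤ × ℤ × ℤ)), (N : ℝ) ^ 2 / T ^ C ≤ G.card ∧
    ∀ g ∈ G, |g.1| ≤ L ∧ (M : ℤ) < g.2.1 ∧ g.2.1 ≤ 2 * M ∧ |g.2.2| ≤ N ∧ |g.2.2 + g.2.1 * g.1| ≤ N ∧
      κ g.2.2 ≠ 0 ∧ κ (g.2.2 + g.2.1 * g.1) ≠ 0 ∧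
      nn (g.2.1 * (θ g.2.2 - θ (g.2.2 + g.2.1 * g.1)) - α g.1) ≤ T ^ C / L

/-- GB-7 (CST): constant frequency -/
def S_CST : Prop := ∃ C : ℕ, ∀ (T T₁ : ℝ) (N M L X X' : ℕ) (E : ℕ → ℂ) (κ : ℤ → ℂ) (β : ℝ) (a b : ℕ → ℂ) (A B : ℝ),
  2 ≤ T → 1 ≤ T₁ → Real.log N ≤ T → 1 ≤ N → 1 ≤ M → 1 ≤ L → M * L ≤ N → X' ≤ N → (∀ y ∈ Icc 1 N, ‖E y‖ ≤ T) →
  SupLe N E (N / T₁) → (∀ h, ‖κ h‖ ≤ 1) → 0 ≤ A → 0 ≤ B →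
  ∑ m ∈ Ioc M (2 * M), ‖a m‖ ^ 2 ≤ A * M → ∑ l ∈ Ioc L (2 * L), ‖b l‖ ^ 2 ≤ B * L →
  ‖BB M L X X' a b (FF N E κ (fun _ => β))‖ ^ 2 ≤ A * B * (N : ℝ) ^ 4 * T ^ C / T₁

/-- GB-8 (TII): the bilinear estimate -/
def S_TII : Prop := ∃ C : ℕ, ∀ (T : ℝ) (N M L X X' : ℕ) (E : ℕ → ℂ) (κ : ℤ → ℂ) (θ : ℤ → ℝ) (a b : ℕ → ℂ) (A B : ℝ),
  2 ≤ T → Real.log N ≤ T → T ^ C ≤ M → T ^ C ≤ L → M * L ≤ N → X' ≤ N → (∀ y ∈ Icc 1 N, ‖E y‖ ≤ T) →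
  SupLe N E (N / T ^ C) → (∀ h, ‖κ h‖ ≤ 1) → 0 ≤ A → 0 ≤ B →
  ∑ m ∈ Ioc M (2 * M), ‖a m‖ ^ 2 ≤ A * M → ∑ l ∈ Ioc L (2 * L), ‖b l‖ ^ 2 ≤ B * L →
  ‖BB M L X X' a b (FF N E κ θ)‖ ^ 2 ≤ A * B * ((N : ℝ) ^ 2 / T) ^ 2

/-- GB-9 (TI): the linear estimate for small divisors -/
def S_TI : Prop := ∃ C : ℕ, ∀ (T : ℝ) (N d u v : ℕ) (E : ℕ → ℂ) (κ : ℤ → ℂ) (θ : ℤ → ℝ),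
  2 ≤ T → T ^ C ≤ N → 1 ≤ d → (d : ℝ) ≤ T → d * v ≤ N → (∀ y ∈ Icc 1 N, ‖E y‖ ≤ T) →
  SupLe N E (N / T ^ C) → (∀ h, ‖κ h‖ ≤ 1) →
  ‖∑ l ∈ Ioc u v, FF N E κ θ (d * l)‖ ≤ (N : ℝ) ^ 2 / T

/-- GB-10 (LAM) -/
def S_LAM : Prop := ∀ U : ℕ, ∃ U' : ℕ, ∃ N₀ : ℕ, ∀ N : ℕ, N₀ ≤ N → ∀ (E : ℕ → ℂ) (κ : ℤ → ℂ) (θ : ℤ → ℝ),
  (∀ y ∈ Icc 1 N, ‖E y‖ ≤ Real.log N ^ 2) → SupLe N E (N / Real.log N ^ U') → (∀ h, ‖κ h‖ ≤ 1) →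
  ‖∑ x ∈ Icc 1 N, ((ArithmeticFunction.vonMangoldt x : ℝ) : ℂ) * FF N E κ θ x‖ ≤ (N : ℝ) ^ 2 / Real.log N ^ U

/-- GB-11 (LZ) -/
def S_LZ : Prop := ∀ U : ℕ, ∃ U' : ℕ, ∀ K : ℕ, ∃ N₀ : ℕ, ∀ N : ℕ, N₀ ≤ N → ∀ z : ℕ, 1 ≤ z → (z : ℝ) ≤ Real.log N ^ K →
  ∀ (E : ℕ → ℂ) (κ : ℤ → ℂ) (θ : ℤ → ℝ),
  (∀ y ∈ Icc 1 N, ‖E y‖ ≤ Real.log N ^ 2) → SupLe N E (N / Real.log N ^ U') → (∀ h, ‖κ h‖ ≤ 1) →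
  ‖∑ x ∈ Icc 1 N, ((lamz z x : ℝ) : ℂ) * FF N E κ θ x‖ ≤ (N : ℝ) ^ 2 / Real.log N ^ U

/-- the difference of `Λ` and the sieve model -/
noncomputable def DD (z y : ℕ) : ℂ := ((ArithmeticFunction.vonMangoldt y - lamz z y : ℝ) : ℂ)

/-- GB-12 (U3): uniformity of order three -/
def S_U3 : Prop := ∀ U : ℕ, ∃ B : ℕ, ∀ K : ℕ, ∃ N₀ : ℕ, ∀ N : ℕ, N₀ ≤ N → ∀ z : ℕ, Real.log N ^ B ≤ z →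
  (z : ℝ) ≤ Real.log N ^ K → ∀ (κ : ℤ → ℂ) (θ : ℤ → ℝ), (∀ h, ‖κ h‖ ≤ 1) →
  ‖∑ x ∈ Icc 1 N, DD z x * FF N (DD z) κ θ x‖ ≤ (N : ℝ) ^ 2 / Real.log N ^ U

/-- the weight of an edge -/
noncomputable def KL (a b : ℕ) : ℝ := ArithmeticFunction.vonMangoldt (a + b) * ArithmeticFunction.vonMangoldt (Nat.dist a b)

/-- the sieve model of the weight of an edge -/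
noncomputable def KZ (z a b : ℕ) : ℝ := lamz z (a + b) * lamz z (Nat.dist a b)

/-- GB-13 (EST) -/
def S_EST : Prop := ∀ U : ℕ, ∃ B : ℕ, ∀ K : ℕ, ∃ n₀ : ℕ, ∀ n : ℕ, n₀ ≤ n → ∀ z : ℕ, Real.log n ^ B ≤ z →
  (z : ℝ) ≤ Real.log n ^ K → ∀ A ⊆ Icc 1 n, ∀ B' ⊆ Icc 1 n,
  |∑ a ∈ A, ∑ b ∈ B', (KL a b - KZ z a b)| ≤ (n : ℝ) ^ 2 / Real.log n ^ U

/-- same parity and the same divisibility by three -/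
def Same (a c : ℕ) : Prop := a % 2 = c % 2 ∧ (3 ∣ a ↔ 3 ∣ c)

/-- GB-14 (LOC) -/
def S_LOC : Prop := ∃ c₀ : ℝ, 0 < c₀ ∧ ∀ K : ℕ, ∃ n₀ : ℕ, ∀ n : ℕ, n₀ ≤ n → ∀ z : ℕ, 1 ≤ z → (z : ℝ) ≤ Real.log n ^ K →
  (∀ a ∈ Icc 1 n, c₀ * n ≤ ∑ b ∈ Icc 1 n, KZ z a b) ∧
  ∀ a ∈ Icc 1 n, ∀ c ∈ Icc 1 n, Same a c → c₀ * n ≤ ∑ b ∈ Icc 1 n, KZ z a b * KZ z c b

/-- GB-15a (STEP1): many neighbours of a large set -/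
def S_STEP1 : Prop := ∀ U : ℕ, ∃ U₁ n₀ : ℕ, ∀ n : ℕ, n₀ ≤ n → ∀ P ⊆ Icc 1 n, ∀ Z ⊆ Icc 1 n,
  (n : ℝ) / Real.log n ^ U ≤ P.card → (Z.card : ℝ) ≤ n / Real.log n ^ U₁ →
  (n : ℝ) / Real.log n ^ 5 ≤ ((Icc 1 n \ Z).filter (fun v => ∃ p ∈ P, R p v)).card

/-- GB-15b (STEP2): common neighbour of two large sets -/
def S_STEP2 : Prop := ∀ U : ℕ, ∃ U₁ n₀ : ℕ, ∀ n : ℕ, n₀ ≤ n → ∀ P ⊆ Icc 1 n, ∀ Q ⊆ Icc 1 n, ∀ Z ⊆ Icc 1 n,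
  (∀ p ∈ P, ∀ q ∈ Q, Same p q) → (n : ℝ) / Real.log n ^ U ≤ P.card → (n : ℝ) / Real.log n ^ U ≤ Q.card →
  (Z.card : ℝ) ≤ n / Real.log n ^ U₁ → ∃ v ∈ Icc 1 n \ Z, ∃ p ∈ P, ∃ q ∈ Q, R p v ∧ R q v

/-- GB-16 (LINK) -/
def S_LINK : Prop := ∃ n₀ : ℕ, ∀ n : ℕ, n₀ ≤ n →
  (n : ℝ) / Real.log n ^ 2 ≤ ((Icc 1 (n - 3)).filter (fun x => x % 2 = 1 ∧ ¬ 3 ∣ x ∧ (2 * x + 3).Prime)).card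

/-- a path of length at most `r` inside `X` -/
def Path (X : Finset ℕ) : ℕ → ℕ → ℕ → Prop
  | 0, a, b => a = b
  | r + 1, a, b => Path X r a b ∨ ∃ v ∈ X, R a v ∧ Path X r v b

/-- GB-17 (NINE): the combinatorial end -/
def S_NINE : Prop := ∀ U : ℕ, ∃ U₁ n₀ : ℕ, ∀ n : ℕ, n₀ ≤ n → ∀ X ⊆ Icc 1 n,
  ((Icc 1 n \ X).card : ℝ) ≤ n / Real.log n ^ U₁ →
  ∀ a ∈ Icc 1 n, ∀ c ∈ Icc 1 n, (n : ℝ) / Real.log n ^ U ≤ dg X a → (n : ℝ) / Real.log n ^ U ≤ dg X c → Path (insert c X) 9 a c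

end Pool.Agent.E8helper66.GB
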